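import Pool.Agent.LPV.Stmts

/-!
# The conditions for one vector (row LIV of squad LPV)

Problem MP_37fa12_co.  As `Helper81_LPK/LIN.lean`.
-/

set_option autoImplicit false

noncomputable section

open MeasureTheory Filter Topology
open scoped RealInnerProductSpace

namespace Pool.Agent.LPV.H81

open Pool.Agent.LPK

variable {n : ℕ}

theorem pt_zero (b : Fin n → V n) : pt b 0 = 0 := by
  unfold pt
  simp

theorem pt_neg (b : Fin n → V n) (a : Fin n → ℤ) : pt b (-a) = -pt b a := by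
  unfold pt
  simp

theorem G_zero : G (0 : V n) = 1 := by
  unfold G
  simp

theorem G_neg (x : V n) : G (-x) = G x := by
  unfold G
  rw [norm_neg]

theorem G_eq (x : V n) : G x = Real.exp (-‖x‖ ^ 2 / 2) := rfl

theorem G_sq (x : V n) : Real.exp (-‖x‖ ^ 2) = G x * G x := by
  rw [G_eq, ← Real.exp_add]
  congr 1
  ring

/-- the function of a pair -/
def ph (F : ℝ → ℝ → ℝ → ℝ) (b : Fin n → V n) (a : Z2 n) : ℝ :=
  F (‖pt b a.1‖ ^ 2) (‖pt b a.2‖ ^ 2) ⟪pt b a.1, pt b a.2⟫ * (G (pt b a.1) * G (pt b a.2))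

theorem ph_sum (F : ℝ → ℝ → ℝ → ℝ) (b : Fin n → V n)
    (hF : ∀ A B H, F A B (-H) = F A B H) (a : Fin n → ℤ) :
    ph F b (a, 0) + ph F b (0, a) + ph F b (a, a) + ph F b (a, -a) =
      G (pt b a) * (F (‖pt b a‖ ^ 2) 0 0 + F 0 (‖pt b a‖ ^ 2) 0) +
      G (pt b a) * G (pt b a) * (2 * F (‖pt b a‖ ^ 2) (‖pt b a‖ ^ 2) (‖pt b a‖ ^ 2)) := by
  have z2 : ‖(0 : V n)‖ ^ 2 = 0 := by simp
  have e1 : ph F b (a, 0) = F (‖pt b a‖ ^ 2) 0 0 * (G (pt b a) * 1) := by
    unfold ph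
    rw [pt_zero, inner_zero_right, z2, G_zero]
  have e2 : ph F b (0, a) = F 0 (‖pt b a‖ ^ 2) 0 * (1 * G (pt b a)) := by
    unfold ph
    rw [pt_zero, inner_zero_left, z2, G_zero]
  have e3 : ph F b (a, a) = F (‖pt b a‖ ^ 2) (‖pt b a‖ ^ 2) (‖pt b a‖ ^ 2) *
      (G (pt b a) * G (pt b a)) := by
    unfold ph
    rw [real_inner_self_eq_norm_sq]
  have e4 : ph F b (a, -a) = F (‖pt b a‖ ^ 2) (‖pt b a‖ ^ 2) (‖pt b a‖ ^ 2) *
      (G (pt b a) * G (pt b a)) := by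
    unfold ph
    rw [pt_neg, norm_neg, G_neg, inner_neg_right, hF, real_inner_self_eq_norm_sq]
  rw [e1, e2, e3, e4]
  ring

theorem zk_even {l : ℕ} (hl : l % 2 = 0) (z : List ℤ) (A B H : ℝ) :
    zk l z A B (-H) = zk l z A B H := by
  unfold zk
  refine Finset.sum_congr rfl fun j _ => ?_
  have : Even (l - 2 * j) := by
    rw [Nat.even_iff]
    omega
  rw [this.neg_pow]

theorem K_even (D : DW) (hz : ∀ d ∈ D.pl, Hz n d.1 d.2.1) (A B H : ℝ) :
    D.K A B (-H) = D.K A B H := by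
  unfold DW.K
  congr 2
  apply List.map_congr_left
  intro d hd
  rw [zk_even (hz d hd).1]

theorem KW_even (D : DW) (A B H : ℝ) : D.KW A B (-H) = D.KW A B H := by
  unfold DW.KW
  congr 1
  apply List.map_congr_left
  intro d _
  have e1 : A + B + 2 * -H = A + B - 2 * H := by ring
  have e2 : A + B - 2 * -H = A + B + 2 * H := by ring
  rw [e1, e2]
  ring

theorem K2_comm (L : List (ℕ × List ℤ)) (A B : ℝ) : K2 L A B = K2 L B A := by
  unfold K2
  congr 1
  apply List.map_congr_left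
  intro d _
  ring

theorem zk_comm (l : ℕ) (z : List ℤ) (A B H : ℝ) : zk l z A B H = zk l z B A H := by
  unfold zk
  refine Finset.sum_congr rfl fun j _ => ?_
  rw [mul_comm A B]

theorem KL_even (D : DW) (A B H : ℝ) : D.KL A B (-H) = D.KL A B H := by
  unfold DW.KL
  congr 1
  apply List.map_congr_left
  intro d _
  have e1 : A + B + 2 * -H = A + B - 2 * H := by ring
  have e2 : A + B - 2 * -H = A + B + 2 * H := by ring
  rw [e1, e2, K2_comm, zk_comm]

/-- the common end -/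
theorem fin_step {g E1 E2 A : ℝ} (hg : g = Real.exp (-A / 2))
    (h1 : E1 + Real.exp (-A / 2) * E2 ≤ 0) : g * E1 + g * g * E2 ≤ 0 := by
  have hpos : 0 < g := hg ▸ Real.exp_pos _
  have e : g * E1 + g * g * E2 = g * (E1 + g * E2) := by ring
  rw [e]
  refine mul_nonpos_of_nonneg_of_nonpos hpos.le ?_
  rw [hg]
  exact h1

theorem liv (h1 : EvaStmt) (_h2 : DuaStmt) : LivStmt := by
  intro n κ D μ ν hC b b' _ hμ hν
  obtain ⟨-, -, -, -, -, hev⟩ := h1
  have z2 : ‖(0 : V n)‖ ^ 2 = 0 := by simp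
  have hLL : ∀ A B H, D.LL A B (-H) = D.LL A B H := by
    intro A B H
    unfold DW.LL
    rw [hev _ _ _ _ hC.evP, K_even D hC.hz, KW_even, KL_even]
  have hSS : ∀ A B H, D.SS A B (-H) = D.SS A B H := by
    intro A B H
    unfold DW.SS
    rw [hev _ _ _ _ hC.evQ]
  constructor
  · intro a ha
    have s1 := ph_sum D.LL b hLL a
    have e1 : ∀ z, gLL D b z = ph D.LL b z := fun _ => rfl
    have e2 : gLS κ D b b' (a, 0) = D.LS n κ (‖pt b a‖ ^ 2) 0 0 * (G (pt b a) * 1) := by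
      unfold gLS
      rw [pt_zero, inner_zero_right, z2, G_zero]
    have e3 : gL D b a = D.f1 (‖pt b a‖ ^ 2) * G (pt b a) + 2 * D.wa (‖pt b a‖ ^ 2) *
        (G (pt b a) * G (pt b a)) := by
      unfold gL
      rw [G_sq]
    rw [e1, e1, e1, e1, s1, e2, e3]
    have f := fin_step (E1 := D.E1 n κ (‖pt b a‖ ^ 2)) (E2 := D.E2 (‖pt b a‖ ^ 2))
      (G_eq (pt b a)) (hC.l1 _ (hμ a ha))
    refine le_of_eq_of_le ?_ f
    unfold DW.E1 DW.E2
    ring
  · intro a ha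
    have s1 := ph_sum D.SS b' hSS a
    have e1 : ∀ z, gSS D b' z = ph D.SS b' z := fun _ => rfl
    have e2 : gLS κ D b b' (0, a) = D.LS n κ 0 (‖pt b' a‖ ^ 2) 0 * (1 * G (pt b' a)) := by
      unfold gLS
      rw [pt_zero, inner_zero_left, z2, G_zero]
    have e3 : gS κ D b' a = D.f1' n κ (‖pt b' a‖ ^ 2) * G (pt b' a) +
        2 * (κ⁻¹ * D.wb n (‖pt b' a‖ ^ 2)) * (G (pt b' a) * G (pt b' a)) := by
      unfold gS
      rw [G_sq]
    rw [e1, e1, e1, e1, s1, e2, e3]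
    have f := fin_step (E1 := D.E1' n κ (‖pt b' a‖ ^ 2)) (E2 := D.E2' n κ (‖pt b' a‖ ^ 2))
      (G_eq (pt b' a)) (hC.l3 _ (hν a ha))
    refine le_of_eq_of_le ?_ f
    unfold DW.E1' DW.E2'
    ring

end Pool.Agent.LPV.H81
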